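import Pool.Agent.H.MP_42a48c_pr.Defs

namespace Pool.Agent.H.MP_42a48c_pr

open Finset
open scoped Classical

variable {V : Type}

/-- number of the first `w` exits that go to `y` -/
noncomputable def cnt (f : Equiv.Perm V) (z : V) (w : ℕ) (y : V) : ℕ :=
  ∑ j ∈ range w, if (f ^ (j + 1)) z = y then 1 else 0

lemma cnt_succ (f : Equiv.Perm V) (z : V) (w : ℕ) (y : V) :
    cnt f z (w + 1) y = cnt f z w y + if (f ^ (w + 1)) z = y then 1 else 0 := sum_range_succ _ _

lemma cnt_add (f : Equiv.Perm V) (z : V) (w w' : ℕ) (y : V) :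
    cnt f z (w + w') y = cnt f z w y + cnt f ((f ^ w) z) w' y := by
  unfold cnt
  rw [sum_range_add]
  congr 1
  refine sum_congr rfl fun j _ => ?_
  rw [← Equiv.Perm.mul_apply, ← pow_add, show j + 1 + w = w + j + 1 by ring]

lemma cnt_mono (f : Equiv.Perm V) (z : V) {w w' : ℕ} (h : w ≤ w') (y : V) :
    cnt f z w y ≤ cnt f z w' y := by
  obtain ⟨k, rfl⟩ := Nat.exists_eq_add_of_le h
  rw [cnt_add]; omega

lemma cnt_shift (f : Equiv.Perm V) (z : V) (w : ℕ) (y : V) :
    cnt f z w (f y) + (if (f ^ w) z = y then 1 else 0) = cnt f z w y + if z = y then 1 else 0 := by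
  induction w with
  | zero => simp [cnt]
  | succ w ih =>
    rw [cnt_succ, cnt_succ]
    have : (f ^ (w + 1)) z = f y ↔ (f ^ w) z = y := by rw [pow_succ']; simp
    simp only [this]
    omega

lemma sum_cnt_le (f : Equiv.Perm V) (z : V) (w : ℕ) (A : Finset V) :
    ∑ y ∈ A, cnt f z w y = ∑ j ∈ range w, if (f ^ (j + 1)) z ∈ A then 1 else 0 := by
  unfold cnt
  rw [sum_comm]
  refine sum_congr rfl fun j _ => ?_
  rw [sum_ite_eq]

lemma cnt_bounds {f : Equiv.Perm V} {s : Finset V} (hf : f.IsCycleOn s) {z y : V} (hz : z ∈ s)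
    (hy : y ∈ s) (w : ℕ) : w / #s ≤ cnt f z w y ∧ (w % #s = 0 → cnt f z w y = w / #s) := by
  have hz' : f z ∈ s := hf.1.mapsTo hz
  obtain ⟨n, -, rfl⟩ := hf.exists_pow_eq hz' hy
  have e : cnt f z w ((f ^ n) (f z)) = w.count (· ≡ n [MOD #s]) := by
    rw [Nat.count_eq_card_filter_range, card_filter, cnt]
    refine sum_congr rfl fun j _ => ?_
    rw [pow_succ, Equiv.Perm.mul_apply]
    simp only [hf.pow_apply_eq_pow_apply hz']
  rw [e, Nat.count_modEq_card _ (card_pos.mpr ⟨z, hz⟩)]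
  exact ⟨by omega, fun h => by simp [h]⟩

variable (G : SimpleGraph V) [G.LocallyFinite] (τ : V → Equiv.Perm V) (a : V)

/-- arrivals at `y` caused by `w x` exits from each `x` -/
noncomputable def inflow (ρ : V → V) (w : V → ℕ) (y : V) : ℕ :=
  ∑ x ∈ G.neighborFinset y, cnt (τ x) (ρ x) (w x) y

/-- advance rotors -/
def adv (ρ : V → V) (w : V → ℕ) : V → V := fun x => (τ x ^ w x) (ρ x)

/-- supersolution on `D` -/
def Sup (D : Finset V) (n : ℕ) (ρ : V → V) (w : V → ℕ) : Prop :=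
  (∀ x, x ∉ D → w x = 0) ∧ ∀ y ∈ D, (if y = a then n else 0) + inflow G τ ρ w y ≤ w y

/-- least supersolution -/
noncomputable def U (D : Finset V) (n : ℕ) (ρ : V → V) (y : V) : ℕ :=
  sInf {k | ∃ w, Sup G τ a D n ρ w ∧ w y = k}

variable {G τ a}

lemma inflow_mono (ρ : V → V) {w w' : V → ℕ} {y : V} (h : ∀ x, G.Adj y x → w x ≤ w' x) :
    inflow G τ ρ w y ≤ inflow G τ ρ w' y :=
  sum_le_sum fun x hx => cnt_mono _ _ (h x (by simpa using hx)) _

lemma inflow_add (ρ : V → V) (w w' : V → ℕ) (y : V) :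
    inflow G τ ρ (w + w') y = inflow G τ ρ w y + inflow G τ (adv τ ρ w) w' y := by
  unfold inflow
  rw [← sum_add_distrib]
  exact sum_congr rfl fun x _ => cnt_add _ _ _ _ _

lemma adv_add (ρ : V → V) (w w' : V → ℕ) : adv τ ρ (w + w') = adv τ (adv τ ρ w) w' := by
  funext x
  simp [adv, add_comm (w x), pow_add]

lemma U_le {D n ρ w} (h : Sup G τ a D n ρ w) (y : V) : U G τ a D n ρ y ≤ w y :=
  Nat.sInf_le ⟨w, h, rfl⟩

lemma U_sup {D n ρ} (h : ∃ w, Sup G τ a D n ρ w) : Sup G τ a D n ρ (U G τ a D n ρ) := by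
  obtain ⟨w, hw⟩ := h
  refine ⟨fun x hx => Nat.eq_zero_of_le_zero ((U_le hw x).trans (hw.1 x hx).le), fun y hy => ?_⟩
  obtain ⟨w', h1, h2⟩ := Nat.sInf_mem (s := {k | ∃ w, Sup G τ a D n ρ w ∧ w y = k}) ⟨_, w, hw, rfl⟩
  have : U G τ a D n ρ y = w' y := h2.symm
  rw [this]
  exact le_trans (by gcongr; exact inflow_mono ρ fun x _ => U_le h1 x) (h1.2 y hy)

lemma U_eq {D n ρ} (h : ∃ w, Sup G τ a D n ρ w) {y : V} (hy : y ∈ D) :
    U G τ a D n ρ y = (if y = a then n else 0) + inflow G τ ρ (U G τ a D n ρ) y := by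
  have h1 := U_sup h
  refine le_antisymm ?_ (h1.2 y hy)
  obtain ⟨c, hc⟩ : ∃ c, c = (if y = a then n else 0) + inflow G τ ρ (U G τ a D n ρ) y := ⟨_, rfl⟩
  have hle : ∀ x, Function.update (U G τ a D n ρ) y c x ≤ U G τ a D n ρ x := by
    intro x
    by_cases hx : x = y
    · subst hx; simpa [hc] using h1.2 x hy
    · simp [hx]
  have h2 : Sup G τ a D n ρ (Function.update (U G τ a D n ρ) y c) := by
    refine ⟨fun x hx => Nat.eq_zero_of_le_zero ((hle x).trans (h1.1 x hx).le), fun z hz => ?_⟩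
    have := inflow_mono (G := G) (τ := τ) ρ (y := z) fun x _ => hle x
    by_cases hzy : z = y
    · subst hzy; simp only [Function.update_self]; omega
    · have := h1.2 z hz
      rw [Function.update_of_ne hzy]; omega
  simpa [hc] using U_le h2 y

lemma Sup.congr {D n ρ ρ' w} (h : Sup G τ a D n ρ w) (e : ∀ x ∈ D, ρ x = ρ' x) :
    Sup G τ a D n ρ' w := by
  refine ⟨h.1, fun y hy => le_trans (le_of_eq ?_) (h.2 y hy)⟩
  congr 1
  refine sum_congr rfl fun x _ => ?_
  by_cases hx : x ∈ D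
  · rw [e x hx]
  · simp [h.1 x hx, cnt]

lemma U_congr {D n ρ ρ'} (e : ∀ x ∈ D, ρ x = ρ' x) : U G τ a D n ρ = U G τ a D n ρ' := by
  funext y
  unfold U
  congr 1
  ext k
  exact ⟨fun ⟨w, h, hk⟩ => ⟨w, h.congr e, hk⟩,
    fun ⟨w, h, hk⟩ => ⟨w, h.congr fun x hx => (e x hx).symm, hk⟩⟩

lemma U_mono {D D' n n' ρ} (h : ∃ w, Sup G τ a D' n' ρ w) (hD : D ⊆ D') (hn : n ≤ n') (y : V) :
    U G τ a D n ρ y ≤ U G τ a D' n' ρ y := by
  have h1 := U_sup h
  have hle : ∀ x, (if x ∈ D then U G τ a D' n' ρ x else 0) ≤ U G τ a D' n' ρ x := fun x => by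
    split_ifs <;> simp
  have h2 : Sup G τ a D n ρ fun x => if x ∈ D then U G τ a D' n' ρ x else 0 := by
    refine ⟨fun x hx => if_neg hx, fun z hz => ?_⟩
    have := inflow_mono (G := G) (τ := τ) ρ (y := z) fun x _ => hle x
    have h3 := h1.2 z (hD hz)
    simp only [hz, if_true]
    split_ifs at h3 ⊢ <;> omega
  exact (U_le h2 y).trans (hle y)

lemma Sup.add {D n m ρ w w'} (h : Sup G τ a D n ρ w) (h' : Sup G τ a D m (adv τ ρ w) w') :
    Sup G τ a D (n + m) ρ (w + w') := by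
  refine ⟨fun x hx => by simp [h.1 x hx, h'.1 x hx], fun y hy => ?_⟩
  have h1 := h.2 y hy
  have h2 := h'.2 y hy
  rw [inflow_add, Pi.add_apply]
  split_ifs at h1 h2 ⊢ <;> omega

lemma exists_exit [Infinite V] (hc : G.Connected) {D : Finset V} (hD : D.Nonempty) :
    ∃ y ∈ D, ∃ x, G.Adj y x ∧ x ∉ D := by
  obtain ⟨u, hu⟩ := hD
  obtain ⟨v, hv⟩ := Infinite.exists_notMem_finset D
  obtain ⟨p⟩ := hc u v
  obtain ⟨d, -, h1, h2⟩ := p.exists_boundary_dart (D : Set V) hu hv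
  exact ⟨_, h1, _, d.adj, h2⟩

lemma exists_g [Infinite V] (hc : G.Connected) (D : Finset V) : ∃ g : V → ℕ,
    (∀ x, x ∉ D → g x = 0) ∧ ∀ y ∈ D, 1 + ∑ x ∈ G.neighborFinset y, g x ≤ G.degree y * g y := by
  induction D using Finset.strongInduction with
  | H D ih =>
    rcases D.eq_empty_or_nonempty with rfl | hD
    · exact ⟨0, by simp, by simp⟩
    obtain ⟨y0, hy0, x0, h1, h2⟩ := exists_exit hc hD
    obtain ⟨g, hg1, hg2⟩ := ih (D.filter fun y => ∀ x, G.Adj y x → x ∈ D)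
      (filter_ssubset.mpr ⟨y0, hy0, fun h => h2 (h x0 h1)⟩)
    obtain ⟨K, hK⟩ : ∃ K, K = 1 + ∑ x ∈ D, g x := ⟨_, rfl⟩
    refine ⟨fun x => g x + if x ∈ D then K else 0, fun x hx => by simp [hx, hg1], fun y hy => ?_⟩
    simp only [hy, if_true, sum_add_distrib, mul_add]
    by_cases h : ∀ x, G.Adj y x → x ∈ D
    · have := hg2 y (mem_filter.mpr ⟨hy, h⟩)
      have h3 : ∑ x ∈ G.neighborFinset y, (if x ∈ D then K else 0) ≤ G.degree y * K := by
        rw [← G.card_neighborFinset_eq_degree, ← smul_eq_mul]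
        exact sum_le_card_nsmul _ _ _ fun x _ => by split_ifs <;> simp
      omega
    · push Not at h
      obtain ⟨x, hx1, hx2⟩ := h
      have hm : x ∈ G.neighborFinset y := by simpa using hx1
      have h3 : ∑ x ∈ G.neighborFinset y, (if x ∈ D then K else 0) + K ≤ G.degree y * K := by
        rw [← G.card_neighborFinset_eq_degree, ← add_sum_erase _ _ hm, if_neg hx2,
          ← card_erase_add_one hm, add_mul, one_mul, zero_add, ← smul_eq_mul]
        gcongr
        exact sum_le_card_nsmul _ _ _ fun x _ => by split_ifs <;> simp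
      have h4 : ∑ x ∈ G.neighborFinset y, g x ≤ ∑ x ∈ D, g x :=
        sum_le_sum_of_ne_zero fun x _ hx => by
          by_contra hxD
          exact hx (hg1 x fun h => hxD (mem_filter.mp h).1)
      omega

lemma exists_sup [Infinite V] (hc : G.Connected)
    (hτ : ∀ x, (τ x).IsCycleOn (G.neighborFinset x)) (D : Finset V) (n : ℕ) {ρ : V → V}
    (hρ : ∀ x ∈ D, G.Adj x (ρ x)) : ∃ w, Sup G τ a D n ρ w := by
  obtain ⟨g, h1, h2⟩ := exists_g hc D
  refine ⟨fun x => G.degree x * (n * g x), fun x hx => by simp [h1 x hx], fun y hy => ?_⟩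
  have e : inflow G τ ρ (fun x => G.degree x * (n * g x)) y = n * ∑ x ∈ G.neighborFinset y, g x := by
    rw [mul_sum]
    refine sum_congr rfl fun x hx => ?_
    by_cases hxD : x ∈ D
    · have hyx : G.Adj x y := by simpa [G.adj_comm] using hx
      have := (cnt_bounds (hτ x) (z := ρ x) (y := y) (by simpa using hρ x hxD) (by simpa using hyx)
        (G.degree x * (n * g x))).2 (by simp)
      rw [this, G.card_neighborFinset_eq_degree, Nat.mul_div_cancel_left _ hyx.degree_pos_left]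
    · simp [h1 x hxD, cnt]
  have := Nat.mul_le_mul_left n (h2 y hy)
  beta_reduce
  rw [e, mul_left_comm]
  rw [mul_add] at this
  split_ifs <;> omega

end Pool.Agent.H.MP_42a48c_pr
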