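import Pool.Agent.H.MP_42a48c_pr.A

namespace Pool.Agent.H.MP_42a48c_pr

open Finset
open scoped Classical

variable {V : Type} {G : SimpleGraph V} [G.LocallyFinite] {τ : V → Equiv.Perm V} {a : V}

/-- forests on `D` -/
def For (G : SimpleGraph V) (D : Finset V) : Set (V → V) :=
  {f | (∀ x ∈ D, G.Adj x (f x)) ∧ (∀ x, x ∉ D → f x = x) ∧ ∀ x ∈ D, ∀ k, 0 < k → f^[k] x ≠ x}

lemma For_finite (D : Finset V) : (For G D).Finite := by
  refine Set.Finite.of_finite_image (f := fun f (x : D) => f x.1)
    ((Set.Finite.pi' (t := fun x : D => G.neighborSet x.1) fun x => Set.toFinite _).subset ?_) ?_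
  · rintro _ ⟨f, hf, rfl⟩ x
    exact hf.1 x.1 x.2
  · intro f hf g hg h
    funext x
    by_cases hx : x ∈ D
    · exact congrFun h ⟨x, hx⟩
    · rw [hf.2.1 x hx, hg.2.1 x hx]

lemma adv_adj (hτ : ∀ x, (τ x).IsCycleOn (G.neighborFinset x)) {ρ : V → V} {x : V}
    (h : G.Adj x (ρ x)) (w : V → ℕ) : G.Adj x (adv τ ρ w x) := by
  simpa [adv] using (hτ x).1.mapsTo.perm_pow (w x) (x := ρ x) (by simpa using h)

/-- the rotor-router map on forests -/
noncomputable def T (G : SimpleGraph V) [G.LocallyFinite] (τ : V → Equiv.Perm V) (a : V)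
    (D : Finset V) (n : ℕ) (f : V → V) : V → V := adv τ f (U G τ a D n f)

variable [Infinite V] (hc : G.Connected) (hτ : ∀ x, (τ x).IsCycleOn (G.neighborFinset x))
include hc hτ

lemma T_mem {D : Finset V} (n : ℕ) {f : V → V} (hf : f ∈ For G D) : T G τ a D n f ∈ For G D := by
  have hex := exists_sup (a := a) hc hτ D n hf.1
  have hs := U_sup hex
  obtain ⟨u, hu⟩ : ∃ u, u = U G τ a D n f := ⟨_, rfl⟩
  obtain ⟨g, hg⟩ : ∃ g, g = adv τ f u := ⟨_, rfl⟩
  have hT : T G τ a D n f = g := by rw [hg, hu]; rfl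
  rw [← hu] at hs
  have h1 : ∀ x ∈ D, G.Adj x (g x) := fun x hx => hg ▸ adv_adj hτ (hf.1 x hx) u
  have h0 : ∀ x, u x = 0 → g x = f x := fun x hx => by simp [hg, adv, hx]
  have h2 : ∀ x, x ∉ D → g x = x := fun x hx => by rw [h0 x (hs.1 x hx), hf.2.1 x hx]
  rw [hT]
  refine ⟨h1, h2, fun x hx k hk hper => ?_⟩
  have hp : ∀ i, g^[k * i] x = x := fun i => Function.IsPeriodicPt.mul_const hper i
  have reach : ∀ i j, g^[(k - 1) * i + j] (g^[i] x) = g^[j] x := by
    intro i j
    rw [← Function.iterate_add_apply]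
    have : (k - 1) * i + j + i = j + k * i := by
      obtain ⟨k, rfl⟩ := Nat.exists_eq_succ_of_ne_zero hk.ne'
      simp; ring
    rw [this, Function.iterate_add_apply, hp]
  have hD : ∀ i, g^[i] x ∈ D := by
    intro i
    by_contra h
    have := reach i 0
    rw [Function.iterate_fixed (h2 _ h)] at this
    exact h (this ▸ hx)
  have last : ∀ z, 0 < u z → cnt (τ z) (f z) (u z) (g z) = cnt (τ z) (f z) (u z - 1) (g z) + 1 := by
    intro z hz
    obtain ⟨m, hm⟩ := Nat.exists_eq_succ_of_ne_zero hz.ne'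
    have : g z = (τ z ^ (m + 1)) (f z) := by simp [hg, adv, hm]
    rw [hm, cnt_succ, if_pos this.symm]; rfl
  by_cases hall : ∀ i, 0 < u (g^[i] x)
  · have hs' : Sup G τ a D n f fun y => u y - if ∃ i, g^[i] x = y then 1 else 0 := by
      refine ⟨fun y hy => by simp [hs.1 y hy], fun y hy => ?_⟩
      have h3 := hs.2 y hy
      by_cases h : ∃ i, g^[i] x = y
      · obtain ⟨i, rfl⟩ := h
        have hz : g (g^[k * (i + 1) + i - 1] x) = g^[i] x := by
          rw [← Function.iterate_succ_apply' g]
          have : (k * (i + 1) + i - 1).succ = i + k * (i + 1) := by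
            have : 0 < k * (i + 1) := by positivity
            omega
          rw [this, Function.iterate_add_apply, hp]
        have hlt : inflow G τ f (fun y => u y - if ∃ i, g^[i] x = y then 1 else 0) (g^[i] x) <
            inflow G τ f u (g^[i] x) := by
          refine sum_lt_sum (fun z _ => cnt_mono _ _ (Nat.sub_le _ _) _)
            ⟨g^[k * (i + 1) + i - 1] x, ?_, ?_⟩
          · rw [SimpleGraph.mem_neighborFinset, ← hz]
            exact (h1 _ (hD _)).symm
          · rw [← hz, last _ (hall _)]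
            simp
        simp only [exists_apply_eq_apply, if_true]
        omega
      · have := inflow_mono (G := G) (τ := τ) f (y := y)
          (w := fun y => u y - if ∃ i, g^[i] x = y then 1 else 0) (w' := u)
          fun z _ => Nat.sub_le _ _
        simp only [h, if_false]
        omega
    have h4 := U_le hs' x
    have h5 := hall 0
    rw [← hu, if_pos ⟨0, rfl⟩] at h4
    simp only [Function.iterate_zero, id] at h5
    omega
  · push Not at hall
    obtain ⟨j, hj⟩ := hall
    have back : ∀ m i, u (g^[m] (g^[i] x)) = 0 → u (g^[i] x) = 0 := by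
      intro m
      induction m with
      | zero => exact fun i h => h
      | succ m ih =>
        intro i h
        rw [Function.iterate_succ_apply, ← Function.iterate_succ_apply' g] at h
        have h6 := ih _ h
        by_contra h7
        have h8 := hs.2 _ (hD (i + 1))
        rw [Function.iterate_succ_apply'] at h6 h8
        have h9 : cnt (τ (g^[i] x)) (f (g^[i] x)) (u (g^[i] x)) (g (g^[i] x)) ≤
            inflow G τ f u (g (g^[i] x)) :=
          single_le_sum (f := fun z => cnt (τ z) (f z) (u z) (g (g^[i] x))) (fun _ _ => Nat.zero_le _)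
            (by rw [SimpleGraph.mem_neighborFinset]; exact (h1 _ (hD _)).symm)
        rw [last _ (Nat.pos_of_ne_zero h7)] at h9
        omega
    have zero : ∀ i, u (g^[i] x) = 0 := fun i =>
      back _ i (by rw [reach i j]; exact Nat.le_zero.mp hj)
    have same : ∀ i, f^[i] x = g^[i] x := by
      intro i
      induction i with
      | zero => rfl
      | succ i ih => rw [Function.iterate_succ_apply', Function.iterate_succ_apply', ih, h0 _ (zero i)]
    exact hf.2.2 x hx k hk ((same k).trans hper)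

lemma U_le_of_T {D : Finset V} (n : ℕ) {f g : V → V} (hf : f ∈ For G D) (hg : g ∈ For G D)
    (h : T G τ a D n f = T G τ a D n g) (x : V) : U G τ a D n f x ≤ U G τ a D n g x := by
  have ef := exists_sup (a := a) hc hτ D n hf.1
  have eg := exists_sup (a := a) hc hτ D n hg.1
  have e1 := fun y hy => U_eq ef (y := y) hy
  have e2 := fun y hy => U_eq eg (y := y) hy
  have z1 := (U_sup ef).1
  have hT : ∀ x, (τ x ^ U G τ a D n f x) (f x) = (τ x ^ U G τ a D n g x) (g x) := congrFun h
  generalize U G τ a D n f = u at *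
  generalize U G τ a D n g = v at *
  obtain ⟨A, hA⟩ : ∃ A, A = D.filter fun x => v x < u x := ⟨_, rfl⟩
  have mA : ∀ x, x ∈ A ↔ v x < u x := fun x => by
    rw [hA, mem_filter]
    exact ⟨fun h => h.2, fun h => ⟨by by_contra hx; rw [z1 x hx] at h; omega, h⟩⟩
  have k1 : ∀ x ∈ A, (τ x ^ (u x - v x)) (f x) = g x := by
    intro x hx
    apply (τ x ^ v x).injective
    rw [← Equiv.Perm.mul_apply, ← pow_add, Nat.add_sub_cancel' ((mA x).mp hx).le, hT]
  have k2 : ∀ x y, cnt (τ x) (f x) (u x) y ≤
      cnt (τ x) (g x) (v x) y + if x ∈ A then cnt (τ x) (f x) (u x - v x) y else 0 := by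
    intro x y
    split_ifs with hx
    · conv_lhs => rw [← Nat.sub_add_cancel ((mA x).mp hx).le, cnt_add, k1 x hx]
      omega
    · have hle : u x ≤ v x := by simpa [mA] using hx
      have : (τ x ^ (v x - u x)) (g x) = f x := by
        apply (τ x ^ u x).injective
        rw [← Equiv.Perm.mul_apply, ← pow_add, Nat.add_sub_cancel' hle, hT]
      conv_rhs => rw [← Nat.sub_add_cancel hle, cnt_add, this]
      omega
  have k3 : ∀ y ∈ A, u y - v y ≤ ∑ x ∈ A, cnt (τ x) (f x) (u x - v x) y := by
    intro y hy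
    have hyD : y ∈ D := (mem_filter.mp (hA ▸ hy)).1
    have h1 : inflow G τ f u y ≤ inflow G τ g v y +
        ∑ x ∈ G.neighborFinset y, if x ∈ A then cnt (τ x) (f x) (u x - v x) y else 0 := by
      unfold inflow
      rw [← sum_add_distrib]
      exact sum_le_sum fun x _ => k2 x y
    have h2 : (∑ x ∈ G.neighborFinset y, if x ∈ A then cnt (τ x) (f x) (u x - v x) y else 0) ≤
        ∑ x ∈ A, cnt (τ x) (f x) (u x - v x) y := by
      rw [sum_ite_mem]
      exact sum_le_sum_of_subset inter_subset_right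
    have := e1 y hyD
    have := e2 y hyD
    omega
  have k4 : ∀ x ∈ A, g x ∈ A := by
    by_contra hn
    push Not at hn
    obtain ⟨x0, hx0, hx1⟩ := hn
    have h1 := sum_le_sum k3
    rw [sum_comm] at h1
    simp only [sum_cnt_le] at h1
    have le1 : ∀ x w, (∑ j ∈ range w, if (τ x ^ (j + 1)) (f x) ∈ A then 1 else 0) ≤ w := by
      intro x w
      have := sum_le_card_nsmul (range w) (fun j => if (τ x ^ (j + 1)) (f x) ∈ A then 1 else 0) 1
        fun j _ => by split_ifs <;> simp
      rwa [card_range, smul_eq_mul, mul_one] at this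
    refine absurd h1 (not_le.mpr (sum_lt_sum (fun x _ => le1 x _) ⟨x0, hx0, ?_⟩))
    have hpos := (mA x0).mp hx0
    obtain ⟨m, hm⟩ : ∃ m, u x0 - v x0 = m + 1 := ⟨u x0 - v x0 - 1, by omega⟩
    have := k1 x0 hx0
    rw [hm] at this ⊢
    rw [sum_range_succ, this, if_neg hx1]
    have := le1 x0 m
    omega
  by_contra hx
  have hxA : x ∈ A := (mA x).mpr (not_le.mp hx)
  have hit : ∀ i, g^[i] x ∈ A := by
    intro i
    induction i with
    | zero => exact hxA
    | succ i ih => rw [Function.iterate_succ_apply']; exact k4 _ ih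
  obtain ⟨i, j, hij, he⟩ := A.finite_toSet.exists_lt_map_eq_of_forall_mem hit
  refine hg.2.2 _ (mem_filter.mp (hA ▸ hit i)).1 (j - i) (by omega) ?_
  rw [← Function.iterate_add_apply, Nat.sub_add_cancel hij.le, he]

lemma T_bij (D : Finset V) (n : ℕ) : Set.BijOn (T G τ a D n) (For G D) (For G D) := by
  refine ((For_finite D).injOn_iff_bijOn_of_mapsTo fun f hf => T_mem hc hτ n hf).mp ?_
  intro f hf g hg h
  have e : U G τ a D n f = U G τ a D n g := funext fun x =>
    le_antisymm (U_le_of_T hc hτ n hf hg h x) (U_le_of_T hc hτ n hg hf h.symm x)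
  funext x
  have := congrFun h x
  simp only [T, adv, e] at this
  exact (τ x ^ _).injective this

lemma sum_T (D : Finset V) (n : ℕ) {M : Type} [AddCommMonoid M] (φ : (V → V) → M) :
    ∑ f ∈ (For_finite (G := G) D).toFinset, φ (T G τ a D n f) =
      ∑ f ∈ (For_finite (G := G) D).toFinset, φ f := by
  have h := T_bij (a := a) hc hτ D n
  refine sum_nbij _ (by simpa using fun f hf => h.mapsTo hf) (by simpa using h.injOn) (by simpa using h.surjOn)
    fun _ _ => rfl

lemma flow_eq (D : Finset V) (n : ℕ) {x y : V} (hxy : G.Adj x y) :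
    G.degree x * ∑ f ∈ (For_finite (G := G) D).toFinset, cnt (τ x) (f x) (U G τ a D n f x) y =
      ∑ f ∈ (For_finite (G := G) D).toFinset, U G τ a D n f x := by
  obtain ⟨Φ, hΦ⟩ : ∃ Φ : V → ℕ, Φ = fun y =>
    ∑ f ∈ (For_finite (G := G) D).toFinset, cnt (τ x) (f x) (U G τ a D n f x) y := ⟨_, rfl⟩
  have h1 : ∀ z, Φ (τ x z) = Φ z := by
    intro z
    have h2 := sum_congr (rfl : (For_finite (G := G) D).toFinset = _)
      fun f _ => cnt_shift (τ x) (f x) (U G τ a D n f x) z
    rw [sum_add_distrib, sum_add_distrib] at h2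
    have h3 : ∑ f ∈ (For_finite (G := G) D).toFinset,
        (if (τ x ^ U G τ a D n f x) (f x) = z then 1 else 0) =
        ∑ f ∈ (For_finite (G := G) D).toFinset, (if f x = z then 1 else 0) :=
      sum_T (a := a) (M := ℕ) hc hτ D n fun f => if f x = z then 1 else 0
    rw [h3] at h2
    simp only [hΦ]
    omega
  have h2 : ∀ k z, Φ ((τ x ^ k) z) = Φ z := by
    intro k z
    induction k with
    | zero => rfl
    | succ k ih => rw [pow_succ', Equiv.Perm.mul_apply, h1, ih]
  have h3 : ∀ z ∈ G.neighborFinset x, Φ z = Φ y := by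
    intro z hz
    obtain ⟨k, -, rfl⟩ := (hτ x).exists_pow_eq (a := y) (by simpa using hxy) hz
    exact h2 k y
  have h4 : ∑ z ∈ G.neighborFinset x, Φ z = G.degree x * Φ y := by
    rw [sum_congr rfl h3, sum_const, smul_eq_mul, G.card_neighborFinset_eq_degree]
  have : Φ y = _ := congrFun hΦ y
  rw [← this, ← h4, hΦ, sum_comm]
  refine sum_congr rfl fun f hf => ?_
  have hf' : f ∈ For G D := by simpa using hf
  by_cases hx : x ∈ D
  · rw [sum_cnt_le, sum_congr rfl (g := fun _ => 1)]
    · simp
    · intro j _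
      rw [if_pos]
      simpa using (hτ x).1.mapsTo.perm_pow (j + 1) (x := f x) (by simpa using hf'.1 x hx)
  · simp [(U_sup (exists_sup (a := a) hc hτ D n hf'.1)).1 x hx, cnt]

end Pool.Agent.H.MP_42a48c_pr
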