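import Pool.Agent.H.MP_42a48c_pr.B

namespace Pool.Agent.H.MP_42a48c_pr

open Finset Filter Topology
open scoped Classical ENNReal

variable {V : Type} {G : SimpleGraph V} [G.LocallyFinite] {τ : V → Equiv.Perm V} {a : V}

lemma green_eq (y : V) : green G a y =
    (if y = a then 1 else 0) + ∑ x ∈ G.neighborFinset y, green G a x / G.degree x := by
  rw [green, tsum_eq_zero_add' ENNReal.summable]
  congr 1
  simp only [prob]
  rw [Summable.tsum_finsetSum fun _ _ => ENNReal.summable]
  refine sum_congr rfl fun x _ => ?_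
  simp only [div_eq_mul_inv, ENNReal.tsum_mul_right, green]

lemma green_ne_top (hc : G.Connected) (ha : green G a a ≠ ⊤) (x : V) : green G a x ≠ ⊤ := by
  have step : ∀ y x, G.Adj y x → green G a y ≠ ⊤ → green G a x ≠ ⊤ := by
    intro y x h hy hx
    apply hy
    rw [green_eq, eq_top_iff]
    refine le_add_left (le_trans ?_ (single_le_sum (f := fun x => green G a x / G.degree x)
      (fun _ _ => zero_le) (show x ∈ G.neighborFinset y by simpa using h)))
    rw [hx, ENNReal.top_div_of_ne_top (by simp)]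
  obtain ⟨p⟩ := hc a x
  have : ∀ {u v : V} (_ : G.Walk u v), green G a u ≠ ⊤ → green G a v ≠ ⊤ := by
    intro u v p
    induction p with
    | nil => exact id
    | cons h _ ih => exact fun hu => ih (step _ _ h hu)
  exact this p ha

/-- truncated Green function -/
noncomputable def gp (G : SimpleGraph V) [G.LocallyFinite] (a : V) (t : ℕ) (x : V) : ℝ :=
  ∑ s ∈ range t, (prob G a s x).toReal

lemma prob_ne_top (t : ℕ) (x : V) : prob G a t x ≠ ⊤ := by
  induction t generalizing x with
  | zero => simp only [prob]; split_ifs <;> simp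
  | succ t ih =>
    simp only [prob]
    refine ENNReal.sum_ne_top.mpr fun y hy => ENNReal.div_ne_top (ih y) ?_
    have : G.Adj x y := by simpa using hy
    exact_mod_cast this.degree_pos_right.ne'

lemma gp_succ (t : ℕ) (y : V) : gp G a (t + 1) y =
    (if y = a then 1 else 0) + ∑ x ∈ G.neighborFinset y, gp G a t x / G.degree x := by
  rw [gp, sum_range_succ', add_comm]
  congr 1
  · simp only [prob]; split_ifs <;> simp
  · simp only [gp, sum_div]
    rw [sum_comm]
    refine sum_congr rfl fun s _ => ?_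
    simp only [prob]
    rw [ENNReal.toReal_sum]
    · simp
    · intro x hx
      have : G.Adj y x := by simpa using hx
      exact ENNReal.div_ne_top (prob_ne_top _ _) (by exact_mod_cast this.degree_pos_right.ne')

lemma gp_tendsto {x : V} (h : green G a x ≠ ⊤) :
    Tendsto (fun t => gp G a t x) atTop (𝓝 (green G a x).toReal) := by
  have := (ENNReal.tendsto_toReal h).comp (ENNReal.tendsto_nat_tsum fun t => prob G a t x)
  refine this.congr fun t => ?_
  simp only [Function.comp, gp]
  rw [ENNReal.toReal_sum fun s _ => prob_ne_top s x]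

lemma lower (hτ : ∀ x, (τ x).IsCycleOn (G.neighborFinset x)) (t : ℕ) (y : V) :
    ∃ (C : ℝ) (B : Finset V), ∀ D, B ⊆ D → ∀ n ρ w, (∀ x ∈ D, G.Adj x (ρ x)) →
      Sup G τ a D n ρ w → n * gp G a t y - C ≤ w y := by
  induction t generalizing y with
  | zero => exact ⟨0, ∅, fun D _ n ρ w _ _ => by simp [gp]⟩
  | succ t ih =>
    choose C B h using ih
    refine ⟨∑ x ∈ G.neighborFinset y, (C x / G.degree x + 1),
      insert y (G.neighborFinset y ∪ (G.neighborFinset y).biUnion B), fun D hD n ρ w hρ hw => ?_⟩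
    have h1 := hw.2 y (hD (mem_insert_self _ _))
    have h2 : ((if y = a then n else 0 : ℕ) : ℝ) + (inflow G τ ρ w y : ℝ) ≤ w y := by
      exact_mod_cast h1
    have h3 : ∑ x ∈ G.neighborFinset y, (n * (gp G a t x / G.degree x) - (C x / G.degree x + 1)) ≤
        (inflow G τ ρ w y : ℝ) := by
      rw [inflow, Nat.cast_sum]
      refine sum_le_sum fun x hx => ?_
      have hyx : G.Adj y x := by simpa using hx
      have hxD : x ∈ D := hD (mem_insert_of_mem (mem_union_left _ hx))
      have h4 := h x D (fun z hz => hD (mem_insert_of_mem (mem_union_right _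
        (mem_biUnion.mpr ⟨x, hx, hz⟩)))) n ρ w hρ hw
      have h5 := (cnt_bounds (hτ x) (z := ρ x) (y := y) (by simpa using hρ x hxD)
        (by simpa using hyx.symm) (w x)).1
      rw [G.card_neighborFinset_eq_degree] at h5
      have hd : 0 < G.degree x := hyx.degree_pos_right
      have hd' : (0 : ℝ) < G.degree x := by exact_mod_cast hd
      have h6 : w x < G.degree x * (cnt (τ x) (ρ x) (w x) y + 1) :=
        (Nat.lt_mul_div_succ _ hd).trans_le (by gcongr)
      have h7 : (w x : ℝ) < G.degree x * (cnt (τ x) (ρ x) (w x) y + 1) := by exact_mod_cast h6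
      have e : n * (gp G a t x / G.degree x) - (C x / G.degree x + 1) =
          (n * gp G a t x - C x) / G.degree x - 1 := by ring
      rw [e, sub_le_iff_le_add, div_le_iff₀' hd']
      linarith
    rw [sum_sub_distrib, ← mul_sum] at h3
    rw [gp_succ, mul_add]
    have e : ((if y = a then n else 0 : ℕ) : ℝ) = n * if y = a then 1 else 0 := by
      split_ifs <;> simp
    linarith

lemma maximal {α : Type} (F : Finset α) (T : α → α) (hT : ∀ φ : α → ℝ, ∑ f ∈ F, φ (T f) = ∑ f ∈ F, φ f)
    (φ : α → ℝ) (N : ℕ) : ∃ E : α → Prop, 0 ≤ ∑ f ∈ F.filter E, φ f ∧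
      ∀ f, ∀ m ≤ N, 0 < ∑ j ∈ range m, φ (T^[j] f) → E f := by
  obtain ⟨M, M0, MS⟩ : ∃ M : ℕ → α → ℝ, (∀ f, M 0 f = 0) ∧
      ∀ n f, M (n + 1) f = max 0 (φ f + M n (T f)) :=
    ⟨fun n => Nat.rec (fun _ => 0) (fun _ g f => max 0 (φ f + g (T f))) n, fun _ => rfl,
      fun _ _ => rfl⟩
  have nn : ∀ n f, 0 ≤ M n f := fun n f => by
    cases n with
    | zero => exact (M0 f).ge
    | succ n => rw [MS]; exact le_max_left _ _
  have mono : ∀ n f, M n f ≤ M (n + 1) f := by
    intro n
    induction n with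
    | zero => intro f; rw [M0]; exact nn _ _
    | succ n ih => intro f; rw [MS n, MS (n + 1)]; gcongr; exact ih _
  have bd : ∀ n f, ∀ m ≤ n, ∑ j ∈ range m, φ (T^[j] f) ≤ M n f := by
    intro n
    induction n with
    | zero => intro f m hm; simp [Nat.le_zero.mp hm, M0]
    | succ n ih =>
      intro f m hm
      cases m with
      | zero => simpa using nn (n + 1) f
      | succ m =>
        rw [sum_range_succ', MS]
        refine le_trans ?_ (le_max_right _ _)
        have := ih (T f) m (by omega)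
        simp only [Function.iterate_succ_apply, Function.iterate_zero, id]
        linarith
  refine ⟨fun f => 0 < M N f, ?_, fun f m hm h => h.trans_le (bd N f m hm)⟩
  have h1 : ∑ f ∈ F, (M N f - M N (T f)) ≤ ∑ f ∈ F, if 0 < M N f then φ f else 0 := by
    refine sum_le_sum fun f _ => ?_
    by_cases h : 0 < M N f
    · have h2 := mono N f
      rw [MS] at h2
      rw [if_pos h]
      rcases le_max_iff.mp h2 with h3 | h3 <;> linarith
    · rw [if_neg h]
      linarith [nn N (T f)]
  rwa [sum_sub_distrib, hT (M N), sub_self, ← sum_filter] at h1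

variable [Infinite V] (hc : G.Connected) (hτ : ∀ x, (τ x).IsCycleOn (G.neighborFinset x))
include hc hτ

lemma mean_le (ha : green G a a ≠ ⊤) (D : Finset V) (n : ℕ) (x : V) :
    ∑ f ∈ (For_finite (G := G) D).toFinset, (U G τ a D n f x : ℝ) ≤
      #(For_finite (G := G) D).toFinset * (n * (green G a x).toReal) := by
  obtain ⟨F, hF⟩ : ∃ F, F = (For_finite (G := G) D).toFinset := ⟨_, rfl⟩
  have mF : ∀ f ∈ F, f ∈ For G D := fun f hf => by simpa [hF] using hf
  obtain ⟨W, hW⟩ : ∃ W : V → ℝ, W = fun x => ∑ f ∈ F, (U G τ a D n f x : ℝ) := ⟨_, rfl⟩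
  obtain ⟨H, hH⟩ : ∃ H : V → ℝ, H = fun x => #F * (n * (green G a x).toReal) := ⟨_, rfl⟩
  have dp : ∀ x, (0 : ℝ) < G.degree x := by
    intro x
    obtain ⟨y, hy, z, h, -⟩ := exists_exit hc (singleton_nonempty x)
    rw [mem_singleton.mp hy] at h
    exact_mod_cast h.degree_pos_left
  have eW : ∀ y ∈ D, W y = (if y = a then (#F * n : ℝ) else 0) +
      ∑ x ∈ G.neighborFinset y, W x / G.degree x := by
    intro y hy
    have h1 : ∀ f ∈ F, (U G τ a D n f y : ℝ) = (if y = a then (n : ℝ) else 0) +
        ∑ x ∈ G.neighborFinset y, (cnt (τ x) (f x) (U G τ a D n f x) y : ℝ) := by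
      intro f hf
      rw [U_eq (exists_sup hc hτ D n (mF f hf).1) hy, inflow]
      push_cast; rfl
    simp only [hW]
    rw [sum_congr rfl h1, sum_add_distrib, sum_comm]
    congr 1
    · split_ifs <;> simp
    · refine sum_congr rfl fun x hx => ?_
      have hxy : G.Adj x y := by simpa [G.adj_comm] using hx
      have := flow_eq (a := a) hc hτ D n hxy
      rw [← hF] at this
      rw [eq_div_iff (dp x).ne', mul_comm]
      exact_mod_cast this
  have eH : ∀ y, H y = (if y = a then (#F * n : ℝ) else 0) +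
      ∑ x ∈ G.neighborFinset y, H x / G.degree x := by
    intro y
    have fin : ∀ x ∈ G.neighborFinset y, green G a x / G.degree x ≠ ⊤ := fun x _ =>
      ENNReal.div_ne_top (green_ne_top hc ha x) (by exact_mod_cast (dp x).ne')
    simp only [hH]
    rw [green_eq y, ENNReal.toReal_add (by split_ifs <;> simp) (ENNReal.sum_ne_top.mpr fin),
      ENNReal.toReal_sum fin, mul_add, mul_add, mul_sum, mul_sum]
    congr 1
    · split_ifs <;> simp
    · refine sum_congr rfl fun x _ => ?_
      simp [mul_div_assoc]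
  have out : ∀ y, y ∉ D → W y ≤ H y := by
    intro y hy
    have : W y = 0 := by
      simp only [hW]
      exact sum_eq_zero fun f hf => by
        rw [(U_sup (exists_sup hc hτ D n (mF f hf).1)).1 y hy]; simp
    rw [this, hH]; positivity
  rw [← hF]
  show (fun x => ∑ f ∈ F, (U G τ a D n f x : ℝ)) x ≤ (fun x => #F * (n * (green G a x).toReal)) x
  rw [← hW, ← hH]
  by_contra hx
  have hxD : x ∈ D := by by_contra h; exact hx (out x h)
  obtain ⟨g, g0, g1⟩ := exists_g hc D
  have gp : ∀ y ∈ D, (0 : ℝ) < g y := by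
    intro y hy
    have := g1 y hy
    have : g y ≠ 0 := fun h => by rw [h] at this; omega
    positivity
  obtain ⟨y, hy, hmax⟩ := exists_max_image D (fun y => (W y - H y) / G.degree y / g y) ⟨x, hxD⟩
  obtain ⟨s, hs⟩ : ∃ s, s = (W y - H y) / G.degree y / g y := ⟨_, rfl⟩
  have s0 : 0 < s := by
    have := dp x
    have := gp x hxD
    have : 0 < W x - H x := by linarith
    exact lt_of_lt_of_le (by positivity) (hs ▸ hmax x hxD)
  have h1 : ∀ z, (W z - H z) / G.degree z ≤ s * g z := by
    intro z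
    by_cases hz : z ∈ D
    · rw [← div_le_iff₀ (gp z hz), hs]; exact hmax z hz
    · rw [g0 z hz, Nat.cast_zero, mul_zero]
      exact div_nonpos_of_nonpos_of_nonneg (by linarith [out z hz]) (dp z).le
  have h2 : W y - H y ≤ s * ∑ z ∈ G.neighborFinset y, (g z : ℝ) := by
    rw [eW y hy, eH y, add_sub_add_left_eq_sub, ← sum_sub_distrib, mul_sum]
    exact sum_le_sum fun z _ => by rw [← sub_div]; exact h1 z
  have h3 : (1 : ℝ) + ∑ z ∈ G.neighborFinset y, (g z : ℝ) ≤ G.degree y * g y := by
    exact_mod_cast g1 y hy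
  have h4 : W y - H y = s * (G.degree y * g y) := by
    have := dp y
    have := gp y hy
    rw [hs]; field_simp
  nlinarith

lemma subadd {D : Finset V} (k : ℕ) (x : V) (m : ℕ) : ∀ f ∈ For G D,
    U G τ a D (k * m) f x ≤ ∑ j ∈ range m, U G τ a D k ((T G τ a D k)^[j] f) x := by
  induction m with
  | zero =>
    intro f hf
    have : Sup G τ a D (k * 0) f 0 := ⟨fun _ _ => rfl, fun y _ => by simp [inflow, cnt]⟩
    simpa using U_le this x
  | succ m ih =>
    intro f hf
    have h1 := T_mem (a := a) hc hτ k hf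
    have h2 := (U_sup (exists_sup (a := a) hc hτ D k hf.1)).add
      (U_sup (exists_sup (a := a) hc hτ D (k * m) h1.1))
    have h3 := U_le h2 x
    have h4 := ih _ h1
    rw [sum_range_succ', mul_add, mul_one, add_comm (k * m)]
    simp only [Function.iterate_succ_apply, Function.iterate_zero, id]
    rw [Pi.add_apply] at h3
    change _ ≤ U G τ a D k f x + U G τ a D (k * m) (T G τ a D k f) x at h3
    omega

lemma count_le (ha : green G a a ≠ ⊤) (x : V) {ε δ : ℝ} (hε : 0 < ε) (hδ : 0 < δ) :
    ∃ (k : ℕ) (B : Finset V), 0 < k ∧ ∀ D, B ⊆ D → ∀ N : ℕ,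
      (#((For_finite (G := G) D).toFinset.filter fun f => ∃ m ≤ N,
        (k * m : ℕ) * ((green G a x).toReal + ε) < U G τ a D (k * m) f x) : ℝ) ≤
        δ * #(For_finite (G := G) D).toFinset := by
  obtain ⟨γ, hγ⟩ : ∃ γ, γ = (green G a x).toReal := ⟨_, rfl⟩
  obtain ⟨t, ht⟩ := ((gp_tendsto (green_ne_top hc ha x)).eventually
    (lt_mem_nhds (show (green G a x).toReal - δ * ε / 2 < _ by linarith [mul_pos hδ hε]))).exists
  obtain ⟨C, B, hB⟩ := lower (a := a) hτ t x
  obtain ⟨k, hk⟩ := exists_nat_gt (max 0 (C / (δ * ε / 2)))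
  have hk0 : (0 : ℝ) < k := (le_max_left _ _).trans_lt hk
  have hk1 : C < k * (δ * ε / 2) := (div_lt_iff₀ (by positivity)).mp ((le_max_right _ _).trans_lt hk)
  refine ⟨k, B, by exact_mod_cast hk0, fun D hD N => ?_⟩
  have hm := mean_le hc hτ ha D k x
  obtain ⟨E, hE1, hE2⟩ := maximal _ _ (sum_T (a := a) hc hτ D k)
    (fun f => (U G τ a D k f x : ℝ) - k * (γ + ε)) N
  rw [← hγ] at ht hm ⊢
  obtain ⟨F, hF⟩ : ∃ F, F = (For_finite (G := G) D).toFinset := ⟨_, rfl⟩
  have mF : ∀ f ∈ F, f ∈ For G D := fun f hf => by simpa [hF] using hf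
  rw [← hF] at hm hE1 ⊢
  have h1 : (#(F.filter fun f => ∃ m ≤ N,
        (k * m : ℕ) * (γ + ε) < U G τ a D (k * m) f x) : ℝ) ≤ #(F.filter E) := by
    refine Nat.cast_le.mpr (card_le_card fun f hf => ?_)
    obtain ⟨h1, m, hm, h2⟩ := mem_filter.mp hf
    refine mem_filter.mpr ⟨h1, hE2 f m hm ?_⟩
    have h3 : (U G τ a D (k * m) f x : ℝ) ≤
        ∑ j ∈ range m, (U G τ a D k ((T G τ a D k)^[j] f) x : ℝ) := by
      exact_mod_cast subadd hc hτ k x m f (mF f h1)
    rw [sum_sub_distrib, sum_const, card_range, nsmul_eq_mul]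
    push_cast at h2
    linarith
  refine h1.trans ?_
  have h2 : ∑ f ∈ F.filter (fun f => ¬ E f), (-(k * (ε + δ * ε)) : ℝ) ≤
      ∑ f ∈ F.filter (fun f => ¬ E f), ((U G τ a D k f x : ℝ) - k * (γ + ε)) := by
    refine sum_le_sum fun f hf => ?_
    have hf' := mF f (mem_filter.mp hf).1
    have := hB D hD k f _ hf'.1 (U_sup (exists_sup hc hτ D k hf'.1))
    nlinarith
  have h3 := sum_filter_add_sum_filter_not F E fun f => (U G τ a D k f x : ℝ) - k * (γ + ε)
  have h4 : (#(F.filter E) : ℝ) + #(F.filter fun f => ¬ E f) = #F := by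
    exact_mod_cast card_filter_add_card_filter_not (s := F) E
  rw [sum_sub_distrib (s := F), sum_const, nsmul_eq_mul] at h3
  rw [sum_const, nsmul_eq_mul] at h2
  have h5 : k * ε * #F ≤ k * ε * ((1 + δ) * #(F.filter fun f => ¬ E f)) := by nlinarith
  have h6 := le_of_mul_le_mul_left h5 (by positivity)
  have h7 : (0 : ℝ) ≤ #(F.filter E) := by positivity
  nlinarith

end Pool.Agent.H.MP_42a48c_pr
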