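import Pool.Agent.H.MP_42a48c_pr.C

namespace Pool.Agent.H.MP_42a48c_pr

open Finset Filter Topology MeasureTheory
open scoped Classical ENNReal

variable {V : Type} {G : SimpleGraph V} [G.LocallyFinite] {τ : V → Equiv.Perm V} {a : V}

lemma ev_const {c : ℕ → ℕ} (hm : Monotone c) {b : ℕ} (hb : ∀ t, c t ≤ b) :
    ∃ t0, ∀ t, t0 ≤ t → c t = c t0 := by
  have hB : BddAbove (Set.range c) := ⟨b, by rintro _ ⟨t, rfl⟩; exact hb t⟩
  obtain ⟨t0, h⟩ := Nat.sSup_mem (Set.range_nonempty c) hB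
  exact ⟨t0, fun t ht => le_antisymm (h ▸ le_csSup hB ⟨t, rfl⟩) (hm ht)⟩

lemma one_walk (hτ : ∀ x, (τ x).IsCycleOn (G.neighborFinset x)) {ρ : V → V}
    (hρ : ∀ x, G.Adj x (ρ x)) {W : V → ℕ}
    (hW : ∀ y, (if y = a then 1 else 0) + inflow G τ ρ W y ≤ W y) :
    ∃ u : V → ℕ, (∀ y, visits τ a ρ y = u y) ∧ final τ a ρ = adv τ ρ u ∧ (∀ y, u y ≤ W y) ∧
      ∀ y, u y = (if y = a then 1 else 0) + inflow G τ ρ u y := by
  obtain ⟨s, hs⟩ : ∃ s : ℕ → V × (V → V), s = fun t => (step τ)^[t] (a, ρ) := ⟨_, rfl⟩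
  have s0 : s 0 = (a, ρ) := by rw [hs]; rfl
  have sS : ∀ t, s (t + 1) = step τ (s t) := fun t => by
    rw [hs]; exact Function.iterate_succ_apply' _ _ _
  obtain ⟨c, hc⟩ : ∃ c : ℕ → V → ℕ, c = fun t y => ∑ r ∈ range t, if (s r).1 = y then 1 else 0 :=
    ⟨_, rfl⟩
  have c0 : ∀ y, c 0 y = 0 := fun y => by simp [hc]
  have cS : ∀ t y, c (t + 1) y = c t y + if (s t).1 = y then 1 else 0 := fun t y => by
    simp only [hc, sum_range_succ]
  have inv : ∀ t, (s t).2 = adv τ ρ (c t) ∧ (∀ y, c t y ≤ W y) ∧ ∀ y,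
      c t y + (if (s t).1 = y then 1 else 0) = (if y = a then 1 else 0) + inflow G τ ρ (c t) y := by
    intro t
    induction t with
    | zero =>
      refine ⟨by funext y; simp [s0, adv, c0], fun y => by simp [c0], fun y => ?_⟩
      simp [s0, c0, inflow, cnt, eq_comm]
    | succ t ih =>
      obtain ⟨h1, h2, h3⟩ := ih
      obtain ⟨x, hx⟩ : ∃ x, x = (s t).1 := ⟨_, rfl⟩
      have e1 : (s (t + 1)).1 = (τ x ^ (c t x + 1)) (ρ x) := by
        rw [sS, step, ← hx, h1, pow_succ']; rfl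
      have hadj : G.Adj x ((τ x ^ (c t x + 1)) (ρ x)) := adv_adj hτ (hρ x) fun _ => c t x + 1
      refine ⟨?_, fun y => ?_, fun y => ?_⟩
      · funext y
        rw [sS, step, ← hx, h1]
        by_cases hy : y = x
        · subst hy
          simp [adv, cS, ← hx, pow_succ']
        · simp [adv, cS, ← hx, hy, Ne.symm hy]
      · rw [cS, h3]
        exact le_trans (by gcongr; exact inflow_mono ρ fun x _ => h2 x) (hW y)
      · rw [cS, h3, e1, add_assoc]
        congr 1
        have : ∀ z ∈ G.neighborFinset y, cnt (τ z) (ρ z) (c (t + 1) z) y =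
            cnt (τ z) (ρ z) (c t z) y + if z = x then
              (if (τ x ^ (c t x + 1)) (ρ x) = y then 1 else 0) else 0 := by
          intro z _
          rw [cS, ← hx]
          by_cases hz : z = x
          · subst hz; simp [cnt_succ]
          · simp [hz, Ne.symm hz]
        rw [inflow, inflow, sum_congr rfl this, sum_add_distrib, sum_ite_eq']
        congr 1
        split_ifs with h4 h5
        · rfl
        · exact absurd (by simpa [← h4] using hadj.symm) h5
        · rfl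
        · rfl
  have mono : ∀ y, Monotone fun t => c t y := fun y =>
    monotone_nat_of_le_succ fun t => by rw [cS]; omega
  choose t0 ht0 using fun y => ev_const (mono y) fun t => (inv t).2.1 y
  have ne : ∀ y t, t0 y ≤ t → (s t).1 ≠ y := by
    intro y t ht h
    have h1 := ht0 y t ht
    have h2 := ht0 y (t + 1) (by omega)
    rw [cS, if_pos h] at h2
    omega
  have ev : ∀ y, ∀ᶠ t in atTop, c t y = c (t0 y) y := fun y => eventually_atTop.mpr ⟨_, ht0 y⟩
  refine ⟨fun y => c (t0 y) y, fun y => ?_, ?_, fun y => (inv _).2.1 y, fun y => ?_⟩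
  · have : {t : ℕ | ((step τ)^[t] (a, ρ)).1 = y} = ↑((range (t0 y)).filter fun r => (s r).1 = y) := by
      ext t
      simp only [Set.mem_ofPred_eq, coe_filter, mem_range]
      have e : (step τ)^[t] (a, ρ) = s t := by rw [hs]
      rw [e]
      exact ⟨fun h => ⟨by by_contra h'; exact ne y t (not_lt.mp h') h, h⟩, fun h => h.2⟩
    rw [visits, this, Set.encard_coe_eq_coe_finsetCard, card_filter, hc]
  · funext x
    have h1 : ∀ᶠ t in atTop, ((step τ)^[t] (a, ρ)).2 x = adv τ ρ (fun y => c (t0 y) y) x := by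
      filter_upwards [ev x] with t ht
      have e : (step τ)^[t] (a, ρ) = s t := by rw [hs]
      rw [e, (inv t).1, adv, adv, ht]
    rw [final, dif_pos ⟨_, h1⟩]
    obtain ⟨t, h2, h3⟩ := (h1.and (Exists.choose_spec
      (⟨_, h1⟩ : ∃ y, ∀ᶠ t in atTop, ((step τ)^[t] (a, ρ)).2 x = y))).exists
    rw [← h3, h2]
  · obtain ⟨t, h1, h2⟩ := (((eventually_all_finset (G.neighborFinset y)).mpr fun x _ => ev x).and
      (eventually_ge_atTop (t0 y))).exists
    have h3 := (inv t).2.2 y
    rw [if_neg (ne y t h2), add_zero, ht0 y t h2] at h3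
    beta_reduce
    rw [h3]
    congr 1
    exact sum_congr rfl fun x hx => by rw [h1 x hx]

lemma occ_le (hτ : ∀ x, (τ x).IsCycleOn (G.neighborFinset x)) {ρ : V → V}
    (hρ : ∀ x, G.Adj x (ρ x)) {W : V → ℕ} {n : ℕ}
    (hW : ∀ y, (if y = a then n else 0) + inflow G τ ρ W y ≤ W y) (x : V) :
    occ τ a n ρ x ≤ W x := by
  have key : ∀ i ≤ n, ∃ c : V → ℕ, (∀ j < i, ∀ y, visits τ a ((final τ a)^[j] ρ) y ≠ ⊤) ∧
      (final τ a)^[i] ρ = adv τ ρ c ∧ (∀ y, c y ≤ W y) ∧
      (∀ y, c y = (if y = a then i else 0) + inflow G τ ρ c y) ∧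
      ∀ y, ∑ j ∈ range i, visits τ a ((final τ a)^[j] ρ) y = c y := by
    intro i
    induction i with
    | zero => exact fun _ => ⟨0, by simp, by funext y; simp [adv], by simp,
        by simp [inflow, cnt], by simp⟩
    | succ i ih =>
      intro hi
      obtain ⟨c, h1, h2, h3, h4, h5⟩ := ih (by omega)
      obtain ⟨u, u1, u2, u3, u4⟩ := one_walk (a := a) hτ (fun x => adv_adj hτ (hρ x) c)
        (W := fun y => W y - c y) (fun y => by
          have e : W = c + fun y => W y - c y := funext fun y => (Nat.add_sub_cancel' (h3 y)).symm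
          have h6 := hW y
          have h7 := h4 y
          conv at h6 => lhs; rw [e, inflow_add]
          split_ifs at h6 h7 ⊢ <;> omega)
      refine ⟨c + u, fun j hj y => ?_, ?_, fun y => ?_, fun y => ?_, fun y => ?_⟩
      · rcases Nat.lt_succ_iff_lt_or_eq.mp hj with hj | rfl
        · exact h1 j hj y
        · rw [h2, u1]; simp
      · rw [Function.iterate_succ_apply', h2, u2, adv_add]
      · have := u3 y
        have := h3 y
        rw [Pi.add_apply]; omega
      · have h6 := h4 y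
        have h7 := u4 y
        rw [inflow_add, Pi.add_apply]
        split_ifs at h6 h7 ⊢ <;> omega
      · rw [sum_range_succ, h5, h2, u1]; simp
  obtain ⟨c, h1, -, h3, -, h5⟩ := key n le_rfl
  rw [occ, if_pos h1, h5]
  exact_mod_cast h3 x

lemma ball_finite (hc : G.Connected) (a : V) (R : ℕ) : {x | G.dist a x < R}.Finite := by
  induction R with
  | zero => simp
  | succ R ih =>
    refine ((ih.biUnion fun x _ => (G.neighborSet x).toFinite).insert a).subset fun y hy => ?_
    obtain ⟨p, hp⟩ := hc.exists_walk_length_eq_dist y a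
    cases p with
    | nil => exact Set.mem_insert _ _
    | cons h q =>
      refine Set.mem_insert_of_mem _ (Set.mem_biUnion ?_ h.symm)
      have := G.dist_le q
      simp only [Set.mem_ofPred_eq, SimpleGraph.Walk.length_cons] at hy hp ⊢
      rw [G.dist_comm] at hy ⊢
      omega

/-- the open ball as a finset -/
noncomputable def Db (hc : G.Connected) (a : V) (R : ℕ) : Finset V := (ball_finite hc a R).toFinset

lemma mem_Db {hc : G.Connected} {R : ℕ} {x : V} : x ∈ Db hc a R ↔ G.dist a x < R := by simp [Db]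

lemma Db_mono (hc : G.Connected) : Monotone (Db hc a) := fun _ _ h _ hx =>
  mem_Db.mpr ((mem_Db.mp hx).trans_le h)

lemma Db_ev (hc : G.Connected) (B : Finset V) : ∀ᶠ R in atTop, B ⊆ Db hc a R := by
  filter_upwards [(eventually_all_finset B).mpr fun x _ => eventually_gt_atTop (G.dist a x)]
    with R h x hx
  exact mem_Db.mpr (h x hx)

lemma forests_eq (hc : G.Connected) (R : ℕ) : forests G a R = For G (Db hc a R) := by
  simp only [forests, For, mem_Db, not_lt]

lemma final_det [Infinite V] (hc : G.Connected) (hτ : ∀ x, (τ x).IsCycleOn (G.neighborFinset x))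
    (ha : green G a a ≠ ⊤) {ρ : V → V} (hρ : ∀ x, G.Adj x (ρ x))
    (h : ∀ (x : V) (j : ℕ), ∃ k : ℕ, 0 < k ∧ ∀ m r : ℕ, (U G τ a (Db hc a r) (k * m) ρ x : ℝ) ≤
      (k * m : ℕ) * ((green G a x).toReal + 1 / (j + 1))) (x : V) :
    limsup (fun n : ℕ => (occ τ a n ρ x : ℝ≥0∞) / n) atTop ≤ green G a x := by
  have ex : ∀ D n, ∃ w, Sup G τ a D n ρ w := fun D n => exists_sup hc hτ D n fun x _ => hρ x
  have key : ∀ n, ∃ r, occ τ a n ρ x ≤ U G τ a (Db hc a r) n ρ x := by
    intro n
    have h1 : ∀ y, ∃ r0, ∀ r, r0 ≤ r → U G τ a (Db hc a r) n ρ y = U G τ a (Db hc a r0) n ρ y := by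
      intro y
      obtain ⟨k, hk, h2⟩ := h y 0
      refine ev_const (fun r r' hr => U_mono (ex _ _) (Db_mono hc hr) le_rfl y)
        (b := ⌈(k * n : ℕ) * ((green G a y).toReal + 1 / ((0 : ℕ) + 1))⌉₊) fun r => ?_
      refine (U_mono (ex _ _) subset_rfl (Nat.le_mul_of_pos_left n hk) y).trans ?_
      exact_mod_cast (h2 n r).trans (Nat.le_ceil _)
    choose r0 hr0 using h1
    refine ⟨r0 x, occ_le hτ hρ (W := fun y => U G τ a (Db hc a (r0 y)) n ρ y) (fun y => ?_) x⟩
    obtain ⟨r, h1, h2, h3⟩ := (((eventually_all_finset (G.neighborFinset y)).mpr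
      fun x _ => eventually_ge_atTop (r0 x)).and ((eventually_ge_atTop (r0 y)).and
        (Db_ev (a := a) hc {y}))).exists
    have h4 := (U_sup (ex (Db hc a r) n)).2 y (h3 (mem_singleton_self y))
    rw [hr0 y r h2] at h4
    refine le_trans ?_ h4
    gcongr
    exact inflow_mono ρ fun z hz => (hr0 z r (h1 z (by simpa using hz))).ge
  have h1 : ∀ j : ℕ, limsup (fun n : ℕ => (occ τ a n ρ x : ℝ≥0∞) / n) atTop ≤
      ENNReal.ofReal ((green G a x).toReal + 1 / (j + 1)) := by
    intro j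
    obtain ⟨k, hk, h2⟩ := h x j
    obtain ⟨γ, hγ⟩ : ∃ γ : ℝ, γ = (green G a x).toReal + 1 / (j + 1) := ⟨_, rfl⟩
    have γ0 : 0 ≤ γ := by rw [hγ]; positivity
    rw [← hγ] at h2 ⊢
    have ht : Tendsto (fun n : ℕ => ENNReal.ofReal ((1 + k / n) * γ)) atTop
        (𝓝 (ENNReal.ofReal ((1 + 0) * γ))) :=
      ENNReal.tendsto_ofReal (((tendsto_const_div_atTop_nhds_zero_nat _).const_add 1).mul_const γ)
    rw [add_zero, one_mul] at ht
    rw [← ht.limsup_eq]
    refine limsup_le_limsup ?_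
    filter_upwards [eventually_gt_atTop 0] with n hn
    obtain ⟨r, hr⟩ := key n
    have h3 : n ≤ k * (n / k + 1) := (Nat.lt_mul_div_succ n hk).le
    have h4 : k * (n / k + 1) ≤ n + k := by rw [mul_add, mul_one]; gcongr; exact Nat.mul_div_le n k
    have h5 : (U G τ a (Db hc a r) n ρ x : ℝ) ≤ (1 + k / n) * γ * n := by
      calc _ ≤ (U G τ a (Db hc a r) (k * (n / k + 1)) ρ x : ℝ) := by
            exact_mod_cast U_mono (ex _ _) subset_rfl h3 x
        _ ≤ _ := h2 _ r
        _ ≤ (n + k : ℕ) * γ := by gcongr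
        _ = _ := by push_cast; field_simp
    refine ENNReal.div_le_of_le_mul ?_
    calc _ ≤ ((U G τ a (Db hc a r) n ρ x : ℕ∞) : ℝ≥0∞) := ENat.toENNReal_le.mpr hr
      _ = ENNReal.ofReal (U G τ a (Db hc a r) n ρ x) := by simp
      _ ≤ ENNReal.ofReal ((1 + k / n) * γ * n) := ENNReal.ofReal_le_ofReal h5
      _ = _ := by rw [ENNReal.ofReal_mul (by positivity), ENNReal.ofReal_natCast]
  have ht : Tendsto (fun j : ℕ => ENNReal.ofReal ((green G a x).toReal + 1 / (j + 1))) atTop
      (𝓝 (ENNReal.ofReal ((green G a x).toReal + 0))) :=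
    ENNReal.tendsto_ofReal (tendsto_one_div_add_atTop_nhds_zero_nat.const_add _)
  rw [add_zero, ENNReal.ofReal_toReal (green_ne_top hc ha x)] at ht
  exact ge_of_tendsto' ht h1

variable [MeasurableSpace V] {μ : Measure (V → V)}

lemma valid_ae (hc : G.Connected) (hμ : IsOWUSF G a μ) : ∀ᵐ ρ ∂μ, ∀ x, G.Adj x (ρ x) := by
  have : Countable V := by
    rw [← Set.countable_univ_iff]
    refine (Set.countable_iUnion fun R => (ball_finite hc a R).countable).mono fun x _ => ?_
    exact Set.mem_iUnion.mpr ⟨_, Nat.lt_succ_self _⟩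
  have h : ∀ x y, ∀ᵐ ρ ∂μ, ρ x = y → G.Adj x y := by
    intro x y
    by_cases hxy : G.Adj x y
    · exact ae_of_all _ fun _ _ => hxy
    have h1 := hμ {x} fun _ => y
    have h2 : μ {ρ | ∀ z ∈ ({x} : Finset V), ρ z = y} = 0 := by
      refine tendsto_nhds_unique h1 (tendsto_const_nhds.congr' ?_)
      filter_upwards [eventually_gt_atTop (G.dist a x)] with R hR
      have : {f ∈ forests G a R | ∀ z ∈ ({x} : Finset V), f z = y} = ∅ := by
        ext f
        simp only [mem_singleton, forall_eq, Set.mem_ofPred_eq, Set.mem_empty_iff_false, iff_false,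
          not_and]
        rintro hf rfl
        exact hxy (hf.1 x hR)
      rw [this]; simp
    rw [ae_iff]
    simpa [hxy] using h2
  filter_upwards [ae_all_iff.mpr fun x => ae_all_iff.mpr fun y => h x y] with ρ hρ x
  exact hρ x _ rfl

lemma cyl_le (hc : G.Connected) (hμ : IsOWUSF G a μ) (D : Finset V) (P : (V → V) → Prop)
    (hP : ∀ f g, (∀ x ∈ D, f x = g x) → P f → P g) {δ : ℝ≥0∞}
    (h : ∀ᶠ R in atTop, (#((For_finite (G := G) (Db hc a R)).toFinset.filter P) : ℝ≥0∞) ≤
      δ * #(For_finite (G := G) (Db hc a R)).toFinset) :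
    μ {ρ | (∀ x, G.Adj x (ρ x)) ∧ P ρ} ≤ δ := by
  have hfin : {η : V → V | (∀ x ∈ D, G.Adj x (η x)) ∧ (∀ x, x ∉ D → η x = x) ∧ P η}.Finite := by
    refine Set.Finite.of_finite_image (f := fun f (x : D) => f x.1)
      ((Set.Finite.pi' (t := fun x : D => G.neighborSet x.1) fun x => Set.toFinite _).subset ?_) ?_
    · rintro _ ⟨f, hf, rfl⟩ x
      exact hf.1 x.1 x.2
    · intro f hf g hg h
      funext x
      by_cases hx : x ∈ D
      · exact congrFun h ⟨x, hx⟩
      · rw [hf.2.1 x hx, hg.2.1 x hx]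
  have h1 : μ {ρ | (∀ x, G.Adj x (ρ x)) ∧ P ρ} ≤ ∑ η ∈ hfin.toFinset, μ {ρ | ∀ x ∈ D, ρ x = η x} := by
    refine le_trans (measure_mono fun ρ hρ => ?_) (measure_biUnion_finset_le _ _)
    simp only [Set.mem_iUnion, Set.Finite.mem_toFinset, Set.mem_ofPred_eq]
    refine ⟨fun x => if x ∈ D then ρ x else x, ⟨fun x hx => by simpa [hx] using hρ.1 x,
      fun x hx => if_neg hx, hP ρ _ (fun x hx => (if_pos hx).symm) hρ.2⟩,
      fun x hx => (if_pos hx).symm⟩
  refine h1.trans (le_of_tendsto (tendsto_finsetSum _ fun η _ => hμ D η) ?_)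
  filter_upwards [h] with R hR
  simp only [div_eq_mul_inv]
  rw [← sum_mul, ← div_eq_mul_inv]
  refine ENNReal.div_le_of_le_mul ?_
  rw [forests_eq hc, Set.ncard_eq_toFinset_card _ (For_finite _)]
  refine le_trans ?_ hR
  obtain ⟨F, hF⟩ : ∃ F, F = (For_finite (G := G) (Db hc a R)).toFinset := ⟨_, rfl⟩
  rw [← hF]
  have h2 : ∀ η ∈ hfin.toFinset, {f ∈ For G (Db hc a R) | ∀ x ∈ D, f x = η x}.ncard =
      #((F.filter P).filter fun f => (fun x => if x ∈ D then f x else x) = η) := by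
    intro η hη
    have hη' := hfin.mem_toFinset.mp hη
    rw [← Set.ncard_coe_finset]
    congr 1
    ext f
    simp only [hF, coe_filter, mem_filter, Set.Finite.mem_toFinset, Set.mem_ofPred_eq]
    constructor
    · rintro ⟨h1, h2⟩
      refine ⟨⟨h1, hP η f (fun x hx => (h2 x hx).symm) hη'.2.2⟩, funext fun x => ?_⟩
      by_cases hx : x ∈ D
      · rw [if_pos hx, h2 x hx]
      · rw [if_neg hx, hη'.2.1 x hx]
    · rintro ⟨⟨h1, -⟩, rfl⟩
      exact ⟨h1, fun x hx => (if_pos hx).symm⟩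
  rw [← Nat.cast_sum, sum_congr rfl h2]
  have h3 := sum_card_fiberwise_eq_card_filter (F.filter P) hfin.toFinset
    fun f x => if x ∈ D then f x else x
  exact_mod_cast (h3.le.trans (card_filter_le _ _))

theorem main [Infinite V] (hc : G.Connected) (hτ : ∀ x, (τ x).IsCycleOn (G.neighborFinset x))
    (ha : green G a a ≠ ⊤) (hμ : IsOWUSF G a μ) :
    ∀ᵐ ρ ∂μ, ∀ x, limsup (fun n : ℕ => (occ τ a n ρ x : ℝ≥0∞) / n) atTop ≤ green G a x := by
  have : Countable V := by
    rw [← Set.countable_univ_iff]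
    refine (Set.countable_iUnion fun R => (ball_finite hc a R).countable).mono fun x _ => ?_
    exact Set.mem_iUnion.mpr ⟨_, Nat.lt_succ_self _⟩
  have key : ∀ (x : V) (ε : ℝ), 0 < ε → ∀ᵐ ρ ∂μ, (∀ x, G.Adj x (ρ x)) → ∃ k : ℕ, 0 < k ∧
      ∀ m r : ℕ, (U G τ a (Db hc a r) (k * m) ρ x : ℝ) ≤ (k * m : ℕ) * ((green G a x).toReal + ε) := by
    intro x ε hε
    rw [ae_iff, ← nonpos_iff_eq_zero]
    refine ENNReal.le_of_forall_pos_le_add fun δ hδ _ => ?_
    rw [zero_add]
    obtain ⟨k, B, hk, hB⟩ := count_le hc hτ ha x hε (δ := δ) (by exact_mod_cast hδ)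
    obtain ⟨A, hA⟩ : ∃ A : ℕ → Set (V → V), A = fun r => {ρ | (∀ x, G.Adj x (ρ x)) ∧ ∃ m ≤ r,
      (k * m : ℕ) * ((green G a x).toReal + ε) < U G τ a (Db hc a r) (k * m) ρ x} := ⟨_, rfl⟩
    have up : ∀ {ρ : V → V} {r r' m : ℕ}, (∀ x ∈ Db hc a r', G.Adj x (ρ x)) → r ≤ r' →
        (U G τ a (Db hc a r) m ρ x : ℝ) ≤ U G τ a (Db hc a r') m ρ x := fun h hr => by
      exact_mod_cast U_mono (exists_sup hc hτ _ _ h) (Db_mono hc hr) le_rfl x
    have hmono : Monotone A := by
      rw [hA]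
      rintro r r' hr ρ ⟨h1, m, hm, h2⟩
      exact ⟨h1, m, hm.trans hr, h2.trans_le (up (fun x _ => h1 x) hr)⟩
    calc _ ≤ μ (⋃ r, A r) := by
          refine measure_mono fun ρ hρ => ?_
          simp only [Set.mem_ofPred_eq, Classical.not_imp, not_exists, not_and, not_forall,
            not_le] at hρ
          obtain ⟨h1, h2⟩ := hρ
          obtain ⟨m, r, h3⟩ := h2 k hk
          exact Set.mem_iUnion.mpr ⟨max m r, hA ▸ ⟨h1, m, le_max_left _ _,
            h3.trans_le (up (fun x _ => h1 x) (le_max_right _ _))⟩⟩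
      _ ≤ δ := by
          rw [hmono.measure_iUnion]
          refine iSup_le fun r => ?_
          rw [hA]
          refine cyl_le hc hμ (Db hc a r) _ (fun f g hfg => by simp only [U_congr hfg]; exact id) ?_
          filter_upwards [Db_ev (a := a) hc B, eventually_ge_atTop r] with R h1 h2
          have h3 := le_trans (Nat.cast_le.mpr (card_le_card (show
            (For_finite (G := G) (Db hc a R)).toFinset.filter (fun ρ => ∃ m ≤ r,
              (k * m : ℕ) * ((green G a x).toReal + ε) < U G τ a (Db hc a r) (k * m) ρ x) ⊆ _ from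
            fun f hf => by
              obtain ⟨h4, m, hm, h5⟩ := mem_filter.mp hf
              exact mem_filter.mpr ⟨h4, m, hm, h5.trans_le
                (up ((For_finite _).mem_toFinset.mp h4).1 h2)⟩))) (hB _ h1 r)
          have h4 := ENNReal.ofReal_le_ofReal h3
          rw [ENNReal.ofReal_mul δ.coe_nonneg, ENNReal.ofReal_natCast, ENNReal.ofReal_natCast] at h4
          simpa using h4
  filter_upwards [valid_ae hc hμ, ae_all_iff.mpr fun x => ae_all_iff.mpr fun j : ℕ =>
    key x (1 / (j + 1)) (by positivity)] with ρ h1 h2 x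
  exact final_det hc hτ ha h1 (fun x j => h2 x j h1) x

end Pool.Agent.H.MP_42a48c_pr
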