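import Mathlib

namespace Pool.Agent.H.MP_42a48c_pr

open Filter Topology MeasureTheory
open scoped ENNReal Classical

variable {V : Type}

/-- One step of the rotor walk on pairs (position, rotor configuration). -/
noncomputable def step (τ : V → Equiv.Perm V) (s : V × (V → V)) : V × (V → V) :=
  (τ s.1 (s.2 s.1), Function.update s.2 s.1 (τ s.1 (s.2 s.1)))

/-- Number of visits to `x` of the walk started at `a` with rotors `ρ`. -/
noncomputable def visits (τ : V → Equiv.Perm V) (a : V) (ρ : V → V) (x : V) : ℕ∞ :=
  {t : ℕ | ((step τ)^[t] (a, ρ)).1 = x}.encard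

/-- The final configuration: the eventual value of each rotor. -/
noncomputable def final (τ : V → Equiv.Perm V) (a : V) (ρ : V → V) (x : V) : V :=
  if h : ∃ y, ∀ᶠ t in atTop, ((step τ)^[t] (a, ρ)).2 x = y then h.choose else ρ x

/-- Visits to `x` during `n` successive walks, infinite if one of them is not transient. -/
noncomputable def occ (τ : V → Equiv.Perm V) (a : V) (n : ℕ) (ρ : V → V) (x : V) : ℕ∞ :=
  if ∀ i < n, ∀ y, visits τ a ((final τ a)^[i] ρ) y ≠ ⊤ then
    ∑ i ∈ Finset.range n, visits τ a ((final τ a)^[i] ρ) x else ⊤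

/-- Law at time `t` of simple random walk started at `a`. -/
noncomputable def prob (G : SimpleGraph V) [G.LocallyFinite] (a : V) : ℕ → V → ℝ≥0∞
  | 0, x => if x = a then 1 else 0
  | t + 1, x => ∑ y ∈ G.neighborFinset x, prob G a t y / G.degree y

/-- Green function: expected number of visits to `x`. -/
noncomputable def green (G : SimpleGraph V) [G.LocallyFinite] (a x : V) : ℝ≥0∞ :=
  ∑' t, prob G a t x

/-- Spanning forests of the ball of radius `R` oriented towards the sphere of radius `R`, given
by the out-neighbour map (the identity where there is no out-edge). -/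
def forests (G : SimpleGraph V) (a : V) (R : ℕ) : Set (V → V) :=
  {f | (∀ x, G.dist a x < R → G.Adj x (f x)) ∧ (∀ x, R ≤ G.dist a x → f x = x) ∧
    ∀ x, G.dist a x < R → ∀ k, 0 < k → f^[k] x ≠ x}

/-- `μ` is the weak limit of the uniform measures on oriented forests. -/
def IsOWUSF [MeasurableSpace V] (G : SimpleGraph V) (a : V) (μ : Measure (V → V)) : Prop :=
  ∀ (A : Finset V) (η : V → V), Tendsto (fun R : ℕ =>
    (({f ∈ forests G a R | ∀ x ∈ A, f x = η x}.ncard : ℝ≥0∞) / (forests G a R).ncard)) atTop
      (𝓝 (μ {ρ | ∀ x ∈ A, ρ x = η x}))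

end Pool.Agent.H.MP_42a48c_pr
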